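import Pool.Agent.TH91.NB.Mat
import Pool.Agent.TH91.LG.Asm

/-!
# MP_87965e_co: two-large sets are sets of nil-Bohr recurrence of every step

`TwoLarge S`: every colouring of the positive integers with two colours has arbitrarily long
monochromatic arithmetic progressions whose common difference is in `S`.
-/

set_option autoImplicit false

namespace Pool.Agent.Results.MP_87965e_co.NilBohrRecurrence

open Pool.Agent.W97.TL Pool.Agent.TH91.NB Pool.Agent.TH91.LG
open scoped ContDiff Manifold

/-- Let `S` be 2-large and let `G` be a nilpotent Lie group (of any step, connected or not), `Γ` a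
subgroup of `G` with `G / Γ` compact.  Then for every `g` in `G`, every point `x` of `G / Γ` and
every open `U` containing `x` there is `s ∈ S` with `g ^ s x ∈ U`: the set `S` is a set of
`d`-nilBohr recurrence for every `d`. -/
theorem result (S : Set ℕ) (hS : TwoLarge S) (E : Type*) [NormedAddCommGroup E]
    [NormedSpace ℝ E] [FiniteDimensional ℝ E] (G : Type*) [TopologicalSpace G]
    [ChartedSpace E G] [Group G] [LieGroup 𝓘(ℝ, E) ∞ G] [Group.IsNilpotent G]
    (Γ : Subgroup G) (hc : CompactSpace (G ⧸ Γ)) (g : G) (x : G ⧸ Γ) (U : Set (G ⧸ Γ))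
    (hU : IsOpen U) (hx : x ∈ U) : ∃ s ∈ S, g ^ s • x ∈ U := by
  have htop : IsTopologicalGroup G := topologicalGroup_of_lieGroup 𝓘(ℝ, E) ∞
  obtain ⟨N, H, φ, h1, h2, h3, h, rfl⟩ := lie_model (E := E) g
  exact matrix_result S hS N H h1 G φ h2 h3 Γ hc h x U hU hx

end Pool.Agent.Results.MP_87965e_co.NilBohrRecurrence
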